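import Pool.Agent.Run7.h450.CE.Base

set_option autoImplicit false
open Filter Topology Matrix
open scoped ComplexOrder

namespace Run7.h378.CE
open Run7.h450.CE

theorem cp_pos {A B : Type*} [Ring A] [StarRing A] [Ring B] [StarRing B] {T : A → B}
    (hT : CP T) {x : A} (hx : Pos x) : Pos (T x) := by
  obtain ⟨c, rfl⟩ := hx
  have := hT 1 (fun _ => c) (fun _ => 1)
  simpa using this

/-- for each colour: a row representation -/
theorem rows (o1 : S_OZ1) (o2 : S_OZ2) {d : ℕ} {B : Type} [CStarAlgebra B] (s : Sys d B)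
    (c : Fin (d + 1)) :
    ∃ (x : ∀ i : {i // s.col i = c}, s.K i.1 → B) (h : {i // s.col i = c} → B),
      (∀ z, Phi (fun i : {i // s.col i = c} => s.ψ i.1) x z =
        ∑ i : {i // s.col i = c}, s.φ i.1 (s.ψ i.1 z)) ∧
      (∀ i k i' k', (⟨i, k⟩ : Σ i : {i // s.col i = c}, s.K i.1) ≠ ⟨i', k'⟩ →
        star (x i k) * x i' k' = 0) ∧
      (∀ i k, star (x i k) * x i k = h i) ∧ (∀ i, Pos (h i)) ∧ (∀ i, Pos (1 - h i)) := by
  classical
  have hrel := o1 B {i // s.col i = c} (fun i => s.K i.1) (fun i => s.φ i.1)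
    (fun i => s.φ_cp i.1) (s.φ_one c) (s.φ_oz c)
  obtain ⟨x, h, hx, ho, hm, hp, h1⟩ := o2 B _ _ _ hrel
  refine ⟨x, h, ?_, ho, hm, hp, h1⟩
  intro z
  unfold Phi
  refine Finset.sum_congr rfl (fun i _ => ?_)
  conv_rhs => rw [Matrix.matrix_eq_sum_single (s.ψ i.1 z)]
  rw [map_sum]
  refine Finset.sum_congr rfl (fun k _ => ?_)
  rw [map_sum]
  refine Finset.sum_congr rfl (fun l _ => ?_)
  rw [← hx i k l, ← map_smul]
  congr 1
  rw [Matrix.smul_single]
  simp

theorem norm_proj_le {B : Type*} [CStarAlgebra B] {p : B} (h1 : star p = p) (h2 : p * p = p) :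
    ‖p‖ ≤ 1 := by
  have h := CStarRing.norm_star_mul_self (x := p)
  rw [h1, h2] at h
  nlinarith [norm_nonneg p]

theorem sum_pj {N : ℕ} {B : Type*} [Ring B] (P : Fin N → B) (h : ∑ i, P i = 1) (z : B) :
    ∑ j, ∑ j', P j * z * P j' = z := by
  have h1 : ∀ j, ∑ j', P j * z * P j' = P j * z := by
    intro j
    rw [← Finset.mul_sum, h, mul_one]
  simp only [h1]
  rw [← Finset.sum_mul, h, one_mul]

/-- one colour is dominated by the whole map -/
theorem col_le {d : ℕ} {B : Type} [CStarAlgebra B] (s : Sys d B) (c : Fin (d + 1)) {p : B}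
    (hp : Pos p) : Pos (s.T p - ∑ i : {i // s.col i = c}, s.φ i.1 (s.ψ i.1 p)) := by
  classical
  have h := Fintype.sum_subtype_add_sum_subtype (fun i => s.col i = c) (fun i => s.φ i (s.ψ i p))
  have e : s.T p - ∑ i : {i // s.col i = c}, s.φ i.1 (s.ψ i.1 p) =
      ∑ i : {i // ¬ s.col i = c}, s.φ i.1 (s.ψ i.1 p) := by
    unfold Sys.T
    rw [← h]
    simp
  rw [e]
  exact Pos.sum _ _ (fun i _ => cp_pos (s.φ_cp i.1) (cp_pos (s.ψ_cp i.1) hp))

theorem corner {d : ℕ} {B : Type} [CStarAlgebra B] (s : Sys d B) (c : Fin (d + 1)) {p : B} {η : ℝ}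
    (h1 : star p = p) (h2 : p * p = p) (hη : ‖s.T p - p‖ ≤ η) :
    ‖(1 - p) * (∑ i : {i // s.col i = c}, s.φ i.1 (s.ψ i.1 p)) * (1 - p)‖ ≤ η := by
  classical
  have hp : Pos p := ⟨p, by rw [h1, h2]⟩
  have hs : star (1 - p) = 1 - p := by rw [star_sub, star_one, h1]
  have hq : (1 - p) * (1 - p) = 1 - p := by
    noncomm_ring; rw [h2]; abel
  have hpos : Pos (∑ i : {i // s.col i = c}, s.φ i.1 (s.ψ i.1 p)) :=
    Pos.sum _ _ (fun i _ => cp_pos (s.φ_cp i.1) (cp_pos (s.ψ_cp i.1) hp))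
  have hA := hpos.conj (1 - p)
  have hB := (col_le s c hp).conj (1 - p)
  rw [hs] at hA hB
  have e1 : (1 - p) * (s.T p - ∑ i : {i // s.col i = c}, s.φ i.1 (s.ψ i.1 p)) * (1 - p) =
      (1 - p) * (s.T p) * (1 - p) -
        (1 - p) * (∑ i : {i // s.col i = c}, s.φ i.1 (s.ψ i.1 p)) * (1 - p) := by
    generalize ∑ i : {i // s.col i = c}, s.φ i.1 (s.ψ i.1 p) = y
    noncomm_ring
  rw [e1] at hB
  refine (hA.norm_le hB).trans ?_
  have e2 : (1 - p) * (s.T p) * (1 - p) = (1 - p) * (s.T p - p) * (1 - p) := by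
    have : (1 - p) * p = 0 := by rw [sub_mul, one_mul, h2, sub_self]
    rw [mul_sub (1 - p) (s.T p) p, this, sub_zero]
  rw [e2]
  have hn := norm_proj_le hs hq
  calc ‖(1 - p) * (s.T p - p) * (1 - p)‖ ≤ ‖1 - p‖ * ‖s.T p - p‖ * ‖1 - p‖ :=
        (norm_mul_le _ _).trans (mul_le_mul_of_nonneg_right (norm_mul_le _ _) (norm_nonneg _))
    _ ≤ 1 * η * 1 := by
        have h0 : 0 ≤ η := (norm_nonneg _).trans hη
        gcongr
    _ = η := by ring

/-- putting the colours together -/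
theorem glue (cut : S_CUT) (o1 : S_OZ1) (o2 : S_OZ2) {d : ℕ} {B : Type} [CStarAlgebra B] {N : ℕ}
    (P : Fin N → B) (hP1 : ∀ i, star (P i) = P i)
    (hP2 : ∀ i i', P i * P i' = if i = i' then P i else 0) (hP3 : ∑ i, P i = 1)
    (s : Sys d B) (e δ t : ℝ) (he : 0 ≤ e) (hδ : 0 < δ) (hδ1 : δ ≤ 1) (ht : 0 < t) (ht1 : t ≤ 1)
    (hed : e ≤ δ * t / 2) (hs : ∀ j, ‖s.T (P j) - P j‖ ≤ e) :
    ∃ c : CSys d B P, ∀ z : B, ‖c.T z - ∑ j, ∑ j', P j * s.T (P j * z * P j') * P j'‖ ≤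
      (d + 1) * (‖z‖ * (10 * √(e / (δ * t)) + 10 * (N : ℝ) ^ 2 * (√δ + √t))) := by
  classical
  choose x h hPhi hor hmod hpos hone using fun c => rows o1 o2 s c
  have hcut := fun c : Fin (d + 1) => cut B N P {i // s.col i = c} (fun i => s.K i.1)
    (fun i => s.ψ i.1) (x c) (h c) e δ t hP1 hP2 hP3 (fun i => s.ψ_cp i.1) (fun i => s.ψ_one i.1)
    (hor c) (hmod c) (hpos c) (hone c) he hδ hδ1 ht ht1 hed (fun j => by
      rw [hPhi c]
      have hpp : P j * P j = P j := by rw [hP2]; simp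
      exact corner s c (hP1 j) hpp (hs j))
  choose K' fK' dK' j' x' h' ψ' a1 a2 a3 a4 a5 a6 a7 using hcut
  let c : CSys d B P :=
    { ι := Σ c : Fin (d + 1), {i // s.col i = c}
      fι := inferInstance
      K := fun i => K' i.1 i.2
      fK := fun i => fK' i.1 i.2
      dK := fun i => dK' i.1 i.2
      col := fun i => i.1
      j := fun i => j' i.1 i.2
      x := fun i => x' i.1 i.2
      h := fun i => h' i.1 i.2
      ψ := fun i => ψ' i.1 i.2
      ψ_cp := fun i => a1 i.1 i.2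
      ψ_one := fun i => a2 i.1 i.2
      Px := fun i k => a3 i.1 i.2 k
      orth := by
        rintro ⟨c, i⟩ k ⟨c', i'⟩ k' hc hne
        change c = c' at hc
        subst hc
        refine a4 c i k i' k' ?_
        intro hh
        apply hne
        obtain ⟨h1, h2⟩ := Sigma.mk.inj_iff.1 hh
        subst h1
        rw [eq_of_heq h2]
      mod := fun i k => a5 i.1 i.2 k
      h_le := fun i => a6 i.1 i.2 }
  refine ⟨c, fun z => ?_⟩
  have e1 : c.T z = ∑ a : Fin (d + 1), @Phi B _ _ _ (K' a) (fK' a) (ψ' a) (x' a) z := by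
    have e0 : c.T z = ∑ i : (Σ c : Fin (d + 1), {i // s.col i = c}),
        (∑ k : K' i.1 i.2, ∑ l : K' i.1 i.2,
          (ψ' i.1 i.2 z k l) • (x' i.1 i.2 k * star (x' i.1 i.2 l)) : B) := rfl
    rw [e0, Fintype.sum_sigma]
    rfl
  have e2 : ∀ y, s.T y = ∑ a : Fin (d + 1),
      Phi (fun i : {i // s.col i = a} => s.ψ i.1) (x a) y := by
    intro y
    simp only [hPhi]
    exact (Fintype.sum_fiberwise s.col (fun i => s.φ i (s.ψ i y))).symm
  have e3 : ∑ j, ∑ j', P j * s.T (P j * z * P j') * P j' = ∑ a : Fin (d + 1),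
      ∑ j, ∑ j', P j * Phi (fun i : {i // s.col i = a} => s.ψ i.1) (x a) (P j * z * P j') *
        P j' := by
    have hh : ∀ j j', P j * s.T (P j * z * P j') * P j' = ∑ a : Fin (d + 1),
        P j * Phi (fun i : {i // s.col i = a} => s.ψ i.1) (x a) (P j * z * P j') * P j' := by
      intro j k
      rw [e2 (P j * z * P k), Finset.mul_sum, Finset.sum_mul]
    simp only [hh]
    refine (Finset.sum_congr rfl (fun j _ => Finset.sum_comm)).trans ?_
    exact Finset.sum_comm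
  rw [e1, e3, ← Finset.sum_sub_distrib]
  refine (norm_sum_le _ _).trans ?_
  refine (Finset.sum_le_sum (fun a _ => a7 a z)).trans ?_
  rw [Finset.sum_const, Finset.card_univ, Fintype.card_fin, nsmul_eq_mul]
  push_cast
  exact le_refl _

theorem t_INI (o1 : S_OZ1) (o2 : S_OZ2) (cut : S_CUT) : S_INI := by
  classical
  intro d B _ N P hP1 hP2 hP3 hnd E ε hε
  set Z : ℝ := 1 + ∑ z ∈ E, ‖z‖ with hZ
  have hZ0 : 0 ≤ ∑ z ∈ E, ‖z‖ := Finset.sum_nonneg (fun _ _ => norm_nonneg _)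
  have hZE : ∀ z ∈ E, ‖z‖ ≤ Z := by
    intro z hz
    have := Finset.single_le_sum (f := fun z => ‖z‖) (fun _ _ => norm_nonneg _) hz
    linarith
  have hpp : ∀ j, P j * P j = P j := fun j => by rw [hP2]; simp
  have hPn : ∀ j, ‖P j‖ ≤ 1 := fun j => norm_proj_le (hP1 j) (hpp j)
  -- choice of `δ`
  obtain ⟨δ, hδ, hδ1, hδε⟩ : ∃ δ : ℝ, 0 < δ ∧ δ ≤ 1 ∧
      (d + 1 : ℝ) * (Z * (10 * (N : ℝ) ^ 2 * (√δ + √δ))) < ε := by
    have hc : Continuous (fun δ : ℝ => (d + 1 : ℝ) * (Z * (10 * (N : ℝ) ^ 2 * (√δ + √δ)))) := by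
      fun_prop
    have h1 : ∀ᶠ δ : ℝ in 𝓝[>] 0, (d + 1 : ℝ) * (Z * (10 * (N : ℝ) ^ 2 * (√δ + √δ))) < ε := by
      have h2 := (hc.tendsto 0).mono_left (nhdsWithin_le_nhds (s := Set.Ioi 0))
      refine h2.eventually_lt_const ?_
      simpa using hε
    obtain ⟨δ, h3, h4⟩ := (h1.and (Ioo_mem_nhdsGT (show (0 : ℝ) < 1 by norm_num))).exists
    exact ⟨δ, h4.1, h4.2.le, h3⟩
  -- choice of `e`
  obtain ⟨e, he, he1, heε⟩ : ∃ e : ℝ, 0 < e ∧ e ≤ δ * δ / 2 ∧
      (d + 1 : ℝ) * (Z * (10 * √(e / (δ * δ)) + 10 * (N : ℝ) ^ 2 * (√δ + √δ))) +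
        (N : ℝ) ^ 2 * e < ε := by
    have hc : Continuous (fun e : ℝ => (d + 1 : ℝ) * (Z * (10 * √(e / (δ * δ)) +
        10 * (N : ℝ) ^ 2 * (√δ + √δ))) + (N : ℝ) ^ 2 * e) := by
      fun_prop
    have h1 : ∀ᶠ e : ℝ in 𝓝[>] 0, (d + 1 : ℝ) * (Z * (10 * √(e / (δ * δ)) +
        10 * (N : ℝ) ^ 2 * (√δ + √δ))) + (N : ℝ) ^ 2 * e < ε := by
      have h2 := (hc.tendsto 0).mono_left (nhdsWithin_le_nhds (s := Set.Ioi 0))
      refine h2.eventually_lt_const ?_
      simpa using hδε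
    obtain ⟨e, h3, h4⟩ := (h1.and (Ioo_mem_nhdsGT (show (0 : ℝ) < δ * δ / 2 by positivity))).exists
    exact ⟨e, h4.1, h4.2.le, h3⟩
  -- the system
  obtain ⟨s, hs⟩ := hnd (Finset.univ.image P ∪
    (E ×ˢ (Finset.univ : Finset (Fin N × Fin N))).image (fun q => P q.2.1 * q.1 * P q.2.2)) e he
  obtain ⟨c, hc⟩ := glue cut o1 o2 P hP1 hP2 hP3 s e δ δ he.le hδ hδ1 hδ hδ1 he1
    (fun j => (hs _ (Finset.mem_union_left _ (Finset.mem_image_of_mem _ (Finset.mem_univ j)))).le)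
  refine ⟨c, fun z hz => ?_⟩
  have h1 := hc z
  have h2 : ‖∑ j, ∑ j', P j * s.T (P j * z * P j') * P j' - z‖ ≤ (N : ℝ) ^ 2 * e := by
    have e1 : ∑ j, ∑ j', P j * s.T (P j * z * P j') * P j' - z =
        ∑ j, ∑ j', P j * (s.T (P j * z * P j') - P j * z * P j') * P j' := by
      have e2 : z = ∑ j, ∑ j', P j * (P j * z * P j') * P j' := by
        conv_lhs => rw [← sum_pj P hP3 z]
        refine Finset.sum_congr rfl (fun j _ => Finset.sum_congr rfl (fun j' _ => ?_))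
        have : P j * (P j * z * P j') * P j' = (P j * P j) * z * (P j' * P j') := by
          noncomm_ring
        rw [this, hpp, hpp]
      have e4 : ∑ j, ∑ j', P j * (s.T (P j * z * P j') - P j * z * P j') * P j' =
          ∑ j, ∑ j', P j * s.T (P j * z * P j') * P j' -
            ∑ j, ∑ j', P j * (P j * z * P j') * P j' := by
        simp only [mul_sub, sub_mul, Finset.sum_sub_distrib]
      rw [e4, ← e2]
    rw [e1]
    have e3 : ∀ j j', ‖P j * (s.T (P j * z * P j') - P j * z * P j') * P j'‖ ≤ e := by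
      intro j j'
      have h3 : ‖s.T (P j * z * P j') - P j * z * P j'‖ ≤ e := by
        refine (hs _ (Finset.mem_union_right _ ?_)).le
        exact Finset.mem_image.2 ⟨(z, (j, j')), Finset.mem_product.2 ⟨hz, Finset.mem_univ _⟩, rfl⟩
      calc ‖P j * (s.T (P j * z * P j') - P j * z * P j') * P j'‖
          ≤ ‖P j‖ * ‖s.T (P j * z * P j') - P j * z * P j'‖ * ‖P j'‖ :=
            (norm_mul_le _ _).trans (mul_le_mul_of_nonneg_right (norm_mul_le _ _) (norm_nonneg _))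
        _ ≤ 1 * e * 1 := by
            have := hPn j
            have := hPn j'
            gcongr
        _ = e := by ring
    calc ‖∑ j, ∑ j', P j * (s.T (P j * z * P j') - P j * z * P j') * P j'‖
        ≤ ∑ j, ∑ j', ‖P j * (s.T (P j * z * P j') - P j * z * P j') * P j'‖ :=
          (norm_sum_le _ _).trans (Finset.sum_le_sum (fun j _ => norm_sum_le _ _))
      _ ≤ ∑ j : Fin N, ∑ j' : Fin N, e :=
          Finset.sum_le_sum (fun j _ => Finset.sum_le_sum (fun j' _ => e3 j j'))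
      _ = (N : ℝ) ^ 2 * e := by
          simp only [Finset.sum_const, Finset.card_univ, Fintype.card_fin, nsmul_eq_mul]
          ring
  have h3 : ‖c.T z - z‖ ≤ ‖c.T z - ∑ j, ∑ j', P j * s.T (P j * z * P j') * P j'‖ +
      ‖∑ j, ∑ j', P j * s.T (P j * z * P j') * P j' - z‖ := by
    have := norm_add_le (c.T z - ∑ j, ∑ j', P j * s.T (P j * z * P j') * P j')
      (∑ j, ∑ j', P j * s.T (P j * z * P j') * P j' - z)
    rwa [sub_add_sub_cancel] at this
  have h4 : (d + 1 : ℝ) * (‖z‖ * (10 * √(e / (δ * δ)) + 10 * (N : ℝ) ^ 2 * (√δ + √δ))) ≤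
      (d + 1 : ℝ) * (Z * (10 * √(e / (δ * δ)) + 10 * (N : ℝ) ^ 2 * (√δ + √δ))) := by
    have := hZE z hz
    gcongr
  linarith

end Run7.h378.CE
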