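import Pool.Agent.Run7.h450.CE.Base

set_option autoImplicit false
open Filter Topology Matrix
open scoped ComplexOrder

namespace Run7.h378.CE.Up
open Run7.h450.CE

section
attribute [local instance] CStarAlgebra.spectralOrder CStarAlgebra.spectralOrderedRing

theorem pos_antisymm {B : Type*} [CStarAlgebra B] {x : B} (h : Pos x) (h' : Pos (-x)) : x = 0 := by
  rw [pos_iff] at h h'
  exact le_antisymm (by simpa using h') h

end

variable {N : ℕ} {B : Type} [CStarAlgebra B]

theorem proj_orth (P : Fin N → B) (h1 : ∀ i, star (P i) = P i) (h2 : ∀ i, P i * P i = P i)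
    (h3 : ∑ i, P i = 1) (i i' : Fin N) (hne : i ≠ i') : P i * P i' = 0 := by
  classical
  have hpos : ∀ j, Pos (P i' * P j * P i') := by
    intro j
    refine ⟨P j * P i', ?_⟩
    rw [star_mul, h1, h1]
    calc P i' * P j * P i' = P i' * (P j * P j) * P i' := by rw [h2]
      _ = P i' * P j * (P j * P i') := by simp only [mul_assoc]
  have hsum : ∑ j, P i' * P j * P i' = P i' := by
    rw [← Finset.sum_mul, ← Finset.mul_sum, h3, mul_one, h2]
  have hs2 : ∑ j ∈ Finset.univ.erase i', P i' * P j * P i' = 0 := by
    have h4 := Finset.add_sum_erase Finset.univ (fun j => P i' * P j * P i') (Finset.mem_univ i')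
    rw [hsum] at h4
    simp only [h2] at h4
    simpa using h4
  have hmem : i ∈ Finset.univ.erase i' := Finset.mem_erase.2 ⟨hne, Finset.mem_univ _⟩
  have h5 := Finset.add_sum_erase (Finset.univ.erase i') (fun j => P i' * P j * P i') hmem
  rw [hs2] at h5
  have h6 : -(P i' * P i * P i') =
      ∑ j ∈ (Finset.univ.erase i').erase i, P i' * P j * P i' :=
    neg_eq_of_add_eq_zero_right h5
  have h7 : P i' * P i * P i' = 0 := by
    refine pos_antisymm (hpos i) ?_
    rw [h6]
    exact Pos.sum _ _ (fun j _ => hpos j)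
  have h8 : star (P i * P i') * (P i * P i') = 0 := by
    rw [star_mul, h1, h1]
    calc P i' * P i * (P i * P i') = P i' * (P i * P i) * P i' := by simp only [mul_assoc]
      _ = P i' * P i * P i' := by rw [h2]
      _ = 0 := h7
  exact CStarRing.star_mul_self_eq_zero_iff _ |>.1 h8

variable {A : Matrix (Fin N) (Fin N) ℕ} {S : Fin N → B}

theorem pp_star (S : Fin N → B) (i : Fin N) : star (PP S i) = PP S i := by
  simp [PP]

theorem pp_idem (hS : CK A S) (i : Fin N) : PP S i * PP S i = PP S i := by
  unfold PP
  calc S i * star (S i) * (S i * star (S i)) = (S i * star (S i) * S i) * star (S i) := by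
        simp only [mul_assoc]
    _ = S i * star (S i) := by rw [hS.isom]

theorem pp_mul (hS : CK A S) (i i' : Fin N) :
    PP S i * PP S i' = if i = i' then PP S i else 0 := by
  by_cases h : i = i'
  · subst h
    rw [if_pos rfl, pp_idem hS]
  · rw [if_neg h]
    exact proj_orth (PP S) (pp_star S) (pp_idem hS) hS.sum_one i i' h

theorem tst_sub (S : Fin N → B) (f g : B → B) :
    Tst S (fun z => f z - g z) = fun z => Tst S f z - Tst S g z := by
  funext z
  unfold Tst
  simp only [mul_sub, sub_mul, Finset.sum_sub_distrib]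

theorem tst_id (hS : CK A S) : Tst S (fun z => z) = fun z => z := by
  funext z
  unfold Tst
  have h : ∀ i, ∑ j, S i * (star (S i) * z * S j) * star (S j) = S i * star (S i) * z := by
    intro i
    have : ∀ j, S i * (star (S i) * z * S j) * star (S j) =
        (S i * star (S i) * z) * (S j * star (S j)) := by
      intro j; simp only [mul_assoc]
    simp only [this]
    rw [← Finset.mul_sum, hS.sum_one, mul_one]
  simp only [h]
  rw [← Finset.sum_mul, hS.sum_one, one_mul]

theorem tst_iter (hS : CK A S) (f : B → B) (m : ℕ) :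
    (Tst S)^[m] (fun z => f z - z) = fun z => (Tst S)^[m] f z - z := by
  induction m with
  | zero => rfl
  | succ m ih =>
    rw [Function.iterate_succ_apply', ih, Function.iterate_succ_apply', tst_sub S _ (fun z => z),
      tst_id hS]

/-- `c.T - id` as a linear map -/
noncomputable def DD {d : ℕ} {P : Fin N → B} (c : CSys d B P) : B →ₗ[ℂ] B where
  toFun := fun z => c.T z - z
  map_add' := by
    intro x y
    simp only [CSys.T, map_add, Matrix.add_apply, add_smul, Finset.sum_add_distrib]
    abel
  map_smul' := by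
    intro a x
    simp only [CSys.T, map_smul, Matrix.smul_apply, smul_eq_mul, mul_smul, ← Finset.smul_sum,
      smul_sub, RingHom.id_apply]

theorem iter_sys (step : S_STEP) (h01 : ZeroOne A) (hS : CK A S) {d : ℕ}
    (c : CSys d B (PP S)) (m : ℕ) :
    ∃ c' : CSys d B (PP S), c'.T = (Tst S)^[m] c.T ∧ c'.cnt = (A ^ m).mulVec c.cnt := by
  induction m with
  | zero => exact ⟨c, rfl, by simp⟩
  | succ m ih =>
    obtain ⟨c1, h1, h2⟩ := ih
    obtain ⟨c2, h3, h4⟩ := step d N A B S h01 hS c1
    refine ⟨c2, ?_, ?_⟩
    · rw [Function.iterate_succ_apply', ← h1]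
      funext z
      exact h3 z
    · funext i
      rw [h4, pow_succ', ← Matrix.mulVec_mulVec, ← h2]
      rfl

theorem t_UP (ini : S_INI) (tn : S_TN) (tos : S_TOS) (step : S_STEP) (good : S_GOOD)
    (gr1 : S_GR1) : S_UP := by
  classical
  intro N A B _ _ S h01 hirr hS d hnd
  have hN : 0 < N := by
    rcases Nat.eq_zero_or_pos N with h | h
    · subst h
      have := hS.sum_one
      simp at this
    · exact h
  unfold htNuc
  refine iSup_le fun F => iSup_le fun ε => iSup_le fun hε => ?_
  choose E δ r hδ hgood using fun b : B => good N A B S h01 hS b (ε / 2) (d + 2) (by positivity)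
    (by positivity)
  -- uniform choices
  obtain ⟨δ', hδ', hδF⟩ : ∃ δ' : ℝ, 0 < δ' ∧ ∀ b ∈ F, δ' ≤ δ b := by
    induction F using Finset.induction_on with
    | empty => exact ⟨1, one_pos, by simp⟩
    | insert a F _ ih =>
      obtain ⟨δ', h1, h2⟩ := ih
      refine ⟨min δ' (δ a), lt_min h1 (hδ a), ?_⟩
      intro b hb
      rcases Finset.mem_insert.1 hb with h | h
      · rw [h]; exact min_le_right _ _
      · exact (min_le_left _ _).trans (h2 b h)
  obtain ⟨c, hc⟩ := ini d B N (PP S) (pp_star S) (pp_mul hS) hS.sum_one hnd (F.biUnion E) δ' hδ'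
  set r' := F.sup r with hr'
  have key : ∀ n : ℕ, rnuc d (orb (theta S) F n) ε ≤
      ((∑ i, ((A ^ (n + r')).mulVec c.cnt) i : ℕ) : ENNReal) := by
    intro n
    obtain ⟨c', h1, h2⟩ := iter_sys step h01 hS c (n + r')
    obtain ⟨s, h3, h4⟩ := tos d N B (PP S) c'
    have h5 : ∀ b ∈ orb (theta S) F n, ‖s.T b - b‖ < ε := by
      rintro b ⟨j, hj, x, hx, rfl⟩
      have h6 := hgood x (DD c) (by
        intro m z
        obtain ⟨cm, h7, h8⟩ := iter_sys step h01 hS c m
        have e1 : (Tst S)^[m] (DD c) = fun z => (Tst S)^[m] c.T z - z := tst_iter hS c.T m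
        rw [e1]
        simp only
        rw [← h7]
        have h9 := tn d N B (PP S) cm z
        have h10 := norm_sub_le (cm.T z) z
        linarith) (by
        intro z hz
        exact (hc z (Finset.mem_biUnion.2 ⟨x, hx, hz⟩)).trans (hδF x hx)) (n + r') j (by
        have : r x ≤ r' := Finset.le_sup hx
        omega)
      have e1 : (Tst S)^[n + r'] (DD c) = fun z => (Tst S)^[n + r'] c.T z - z :=
        tst_iter hS c.T (n + r')
      rw [e1] at h6
      simp only at h6
      rw [← h1] at h6
      rw [h3]
      linarith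
    refine (iInf₂_le s h5).trans ?_
    rw [h4, h2]
  have hgr := (gr1 N A hN h01 hirr).2 c.cnt r'
  refine le_trans ?_ hgr
  refine limsup_le_limsup (Eventually.of_forall fun n => ?_)
  exact EReal.div_le_div_right_of_nonneg (by positivity) (ENNReal.log_monotone (key n))

end Run7.h378.CE.Up

namespace Run7.h378.CE
open Run7.h450.CE

theorem t_UP : S_INI → S_TN → S_TOS → S_STEP → S_GOOD → S_GR1 → S_UP := Up.t_UP

end Run7.h378.CE
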